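import Pool.Agent.Run7.h954.RV.Core

/-!
# Abel-Jacobi maps and rational varieties
-/

set_option autoImplicit false

open CategoryTheory CategoryTheory.Limits AlgebraicGeometry MvPolynomial

universe u

namespace Pool.Agent.Run7.h954.RV

variable {k : Type} [Field k]

/-- Groups `C m X` (homologically trivial cycles of codimension `m` on `X` modulo rational equivalence, integral or
tensored with `ℚ`), groups `J m X` (the targets of the Abel-Jacobi maps) and homomorphisms `aj m X`. -/
structure Theory (k : Type) [Field k] where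
  C : ℤ → Sch k → Type u
  J : ℤ → Sch k → Type u
  [groupC : ∀ m X, AddCommGroup (C m X)]
  [groupJ : ∀ m X, AddCommGroup (J m X)]
  aj : ∀ m X, C m X →+ J m X

attribute [instance] Theory.groupC Theory.groupJ

/-- The homomorphisms `r` and `s` are isomorphic. -/
def IsoHom {A B A' B' : Type u} [AddCommGroup A] [AddCommGroup B] [AddCommGroup A'] [AddCommGroup B']
    (r : A →+ B) (s : A' →+ B') : Prop :=
  ∃ (a : A ≃+ A') (b : B ≃+ B'), ∀ x, s (a x) = b (r x)

/-- The direct sum of the homomorphisms `aj (m - 1) X`, ..., `aj (m - r) X`. -/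
def Theory.sum (T : Theory.{u} k) (r : ℕ) (m : ℤ) (X : Sch k) :
    (∀ a : Fin r, T.C (m - (a + 1)) X) →+ (∀ a : Fin r, T.J (m - (a + 1)) X) where
  toFun f a := T.aj _ X (f a)
  map_zero' := by
    funext a
    exact map_zero _
  map_add' f g := by
    funext a
    exact map_add _ _ _

/-- The Abel-Jacobi map in codimension `m` is injective. -/
def Theory.Inj (T : Theory.{u} k) (m : ℤ) (X : Sch k) : Prop := Function.Injective (T.aj m X)

/-- Well known properties of the Abel-Jacobi maps. -/
structure IsAJ (T : Theory.{u} k) : Prop where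
  /-- The formula for blow-ups with smooth centres. -/
  blowUp : ∀ {X P Y : Sch k} (i : X ⟶ P) (π : Y ⟶ P) (d N : ℕ), Center i d N → IsBlowUp i π →
    ∀ m, IsoHom (T.aj m Y) ((T.aj m P).prodMap (T.sum (N - d - 1) m X))
  /-- The pull-back by a birational morphism is injective. -/
  birat : ∀ {Y' Y : Sch k} (f : Y' ⟶ Y), SmoothProj Y' → SmoothProj Y → Birat f → ∀ m,
    ∃ (a : T.C m Y →+ T.C m Y') (b : T.J m Y →+ T.J m Y'), Function.Injective a ∧
      ∀ x, T.aj m Y' (a x) = b (T.aj m Y x)
  /-- There are no homologically trivial cycles on the projective space. -/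
  space : ∀ N m, Subsingleton (T.C m (PP k N))
  /-- There are no homologically trivial cycles of codimension `m` for `m ≤ 0` and for `m > dim X`. -/
  vanish : ∀ (X : Sch k) (d : ℕ), SmoothProj X → Dim X d → ∀ m : ℤ, m ≤ 0 ∨ d < m →
    Subsingleton (T.C m X)

variable {T : Theory.{u} k}

lemma inj_iff_of_isoHom {A B A' B' : Type u} [AddCommGroup A] [AddCommGroup B] [AddCommGroup A']
    [AddCommGroup B'] {r : A →+ B} {s : A' →+ B'} (h : IsoHom r s) :
    Function.Injective r ↔ Function.Injective s := by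
  obtain ⟨a, b, hab⟩ := h
  constructor
  · intro hr x y hxy
    obtain ⟨x, rfl⟩ := a.surjective x
    obtain ⟨y, rfl⟩ := a.surjective y
    rw [hab, hab] at hxy
    rw [hr (b.injective hxy)]
  · intro hs x y hxy
    apply a.injective
    apply hs
    rw [hab, hab, hxy]

lemma inj_sum (r : ℕ) (m : ℤ) (X : Sch k) :
    Function.Injective (T.sum r m X) ↔ ∀ a : Fin r, T.Inj (m - (a + 1)) X := by
  constructor
  · intro h a x y hxy
    have h1 : T.sum r m X (Pi.single a x) = T.sum r m X (Pi.single a y) := by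
      funext b
      change T.aj _ X (Pi.single (M := fun a : Fin r => T.C (m - (a + 1)) X) a x b) =
        T.aj _ X (Pi.single (M := fun a : Fin r => T.C (m - (a + 1)) X) a y b)
      by_cases hb : b = a
      · subst hb
        rwa [Pi.single_eq_same, Pi.single_eq_same]
      · rw [Pi.single_eq_of_ne hb, Pi.single_eq_of_ne hb]
    have h2 := congrFun (h h1) a
    rwa [Pi.single_eq_same, Pi.single_eq_same] at h2
  · intro h f g hfg
    funext a
    exact h a (congrFun hfg a)

lemma IsAJ.compatible (hT : IsAJ T) : Compatible 0 T.Inj where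
  blowUp i π d N hc hπ m := by
    rw [Theory.Inj, inj_iff_of_isoHom (hT.blowUp i π d N hc hπ m), ← inj_sum]
    exact Prod.map_injective (f := ⇑(T.aj m _)) (g := ⇑(T.sum (N - d - 1) m _))
  birat f h' h hf m hinj := by
    obtain ⟨a, b, ha, hab⟩ := hT.birat f h' h hf m
    intro x y hxy
    apply ha
    apply hinj
    rw [hab, hab, hxy]
  space N m := by
    have := hT.space N m
    exact Function.injective_of_subsingleton _
  vanish X d hX hd m hm := by
    have := hT.vanish X d hX hd m (by simpa using hm)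
    exact Function.injective_of_subsingleton _

/-- The kernels of the Abel-Jacobi maps of the blow-up of the projective space in `X`. -/
lemma IsAJ.kernel (hT : IsAJ T) {X Y : Sch k} {d N : ℕ} {i : X ⟶ PP k N} {π : Y ⟶ PP k N}
    (hc : Center i d N) (hπ : IsBlowUp i π) (m : ℤ) :
    Nonempty ((T.aj m Y).ker ≃+ (∀ a : Fin (N - d - 1), (T.aj (m - (a + 1)) X).ker)) := by
  obtain ⟨α, β, h⟩ := hT.blowUp i π d N hc hπ m
  have hs := hT.space N m
  refine ⟨{
    toFun := fun x a => ⟨(α x.1).2 a, ?_⟩
    invFun := fun f => ⟨α.symm (0, fun a => (f a).1), ?_⟩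
    left_inv := ?_
    right_inv := ?_
    map_add' := ?_ }⟩
  · have h1 := h x.1
    rw [AddMonoidHom.mem_ker.mp x.2, map_zero] at h1
    exact congrFun (congrArg Prod.snd h1) a
  · rw [AddMonoidHom.mem_ker]
    apply β.injective
    rw [← h, α.apply_symm_apply, map_zero]
    apply Prod.ext
    · exact (T.aj m (PP k N)).map_zero
    · funext a
      exact (f a).2
  · intro x
    apply Subtype.ext
    change α.symm (0, fun a => (α x.1).2 a) = x.1
    rw [AddEquiv.symm_apply_eq]
    exact Prod.ext (Subsingleton.elim _ _) rfl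
  · intro f
    funext a
    apply Subtype.ext
    change (α (α.symm (0, fun a => (f a).1))).2 a = (f a).1
    rw [α.apply_symm_apply]
  · intro x y
    funext a
    apply Subtype.ext
    change (α (x.1 + y.1)).2 a = (α x.1).2 a + (α y.1).2 a
    rw [map_add]
    rfl

/-- One variety. -/
theorem one (G : Geometry k) (hT : IsAJ T) {X : Sch k} (hX : SmoothProj X) {d : ℕ} (hd : Dim X d) {n : ℕ}
    (hn : d + 1 ≤ n) : ∃ (i : X ⟶ PP k (2 * n - 1)) (Y : Sch k) (π : Y ⟶ PP k (2 * n - 1)),
      Center i d (2 * n - 1) ∧ IsBlowUp i π ∧ RatVar (2 * n - 1) Y ∧ ((∀ m, T.Inj m X) ↔ T.Inj n Y) ∧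
        Nonempty ((T.aj n Y).ker ≃+ (∀ a : Fin (2 * n - 1 - d - 1), (T.aj (n - (a + 1)) X).ker)) := by
  obtain ⟨i, Y, π, hc, hπ, hY⟩ := G.exists_rat hX hd (N := 2 * n - 1) (by omega)
  exact ⟨i, Y, π, hc, hπ, hY, middle hT.compatible (by omega) hc hπ, hT.kernel hc hπ n⟩

/-- Varieties of dimension at most `D` and blow-ups of the projective space of dimension `2 D + 1`. -/
theorem dimension (G : Geometry k) (hT : IsAJ T) (D : ℕ) :
    (∀ (X : Sch k) (d : ℕ), SmoothProj X → Dim X d → d ≤ D → ∀ m, T.Inj m X) ↔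
      ∀ (X Y : Sch k) (d : ℕ) (i : X ⟶ PP k (2 * D + 1)) (π : Y ⟶ PP k (2 * D + 1)), d ≤ D →
        Center i d (2 * D + 1) → IsBlowUp i π → T.Inj (D + 1) Y := by
  constructor
  · intro h X Y d i π hd hc hπ
    exact (middle_dim hT.compatible hd hc hπ).mp (h X d hc.smooth hc.dimX hd)
  · intro h X d hX hd hdD
    obtain ⟨i, Y, π, hc, hπ, hY⟩ := G.exists_rat hX hd (N := 2 * D + 1) (by omega)
    exact (middle_dim hT.compatible hdD hc hπ).mpr (h X Y d i π hdD hc hπ)

end Pool.Agent.Run7.h954.RV
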