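import Pool.Agent.Run7.h954.RV.Core

/-!
# The generalized Bloch conjecture and rational varieties
-/

set_option autoImplicit false

open CategoryTheory CategoryTheory.Limits AlgebraicGeometry MvPolynomial

universe u

namespace Pool.Agent.Run7.h954.RV

/-- Groups `A l X` (homologically trivial cycles of dimension `l` on `X` modulo rational equivalence, tensored
with `ℚ`) and numbers `h p q X` (Hodge numbers). -/
structure Cycles (k : Type) [Field k] where
  A : ℤ → Sch k → Type u
  h : ℤ → ℤ → Sch k → ℕ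
  [group : ∀ l X, AddCommGroup (A l X)]

attribute [instance] Cycles.group

variable {k : Type} [Field k]

/-- `X` has Hodge coniveau at least `c`. -/
def Cycles.Coniveau (T : Cycles.{u} k) (c : ℤ) (X : Sch k) : Prop :=
  ∀ p q : ℤ, p ≠ q → min p q < c → T.h p q X = 0

/-- The group `A l X` is zero. -/
def Cycles.Zero (T : Cycles.{u} k) (l : ℤ) (X : Sch k) : Prop := Subsingleton (T.A l X)

/-- Well known properties of homologically trivial cycles and Hodge numbers. -/
structure IsCycles (T : Cycles.{u} k) : Prop where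
  /-- The formulas for blow-ups with smooth centres. -/
  blowUp : ∀ {X P Y : Sch k} (i : X ⟶ P) (π : Y ⟶ P) (d N : ℕ), Center i d N → IsBlowUp i π →
    ∀ l, Nonempty (T.A l Y ≃+ T.A l P × (∀ a : Fin (N - d - 1), T.A (l - (a + 1)) X))
  hodge : ∀ {X P Y : Sch k} (i : X ⟶ P) (π : Y ⟶ P) (d N : ℕ), Center i d N → IsBlowUp i π →
    ∀ p q, T.h p q Y = T.h p q P + ∑ a : Fin (N - d - 1), T.h (p - (a + 1)) (q - (a + 1)) X
  /-- The projective space. -/
  space : ∀ N l, Subsingleton (T.A l (PP k N))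
  space_hodge : ∀ N p q, p ≠ q → T.h p q (PP k N) = 0
  /-- There are no cycles of negative dimension. -/
  neg : ∀ (X : Sch k), SmoothProj X → ∀ l : ℤ, l < 0 → Subsingleton (T.A l X)

variable {T : Cycles.{u} k}

lemma zero_blowUp (hT : IsCycles T) {X P Y : Sch k} {i : X ⟶ P} {π : Y ⟶ P} {d N : ℕ} (hc : Center i d N)
    (hπ : IsBlowUp i π) (l : ℤ) :
    T.Zero l Y ↔ T.Zero l P ∧ ∀ a : Fin (N - d - 1), T.Zero (l - (a + 1)) X := by
  obtain ⟨e⟩ := hT.blowUp i π d N hc hπ l
  constructor
  · intro h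
    have h0 : Subsingleton (T.A l Y) := h
    have h1 : Subsingleton (T.A l P × (∀ a : Fin (N - d - 1), T.A (l - (a + 1)) X)) :=
      e.symm.injective.subsingleton
    refine ⟨⟨fun x y => ?_⟩, fun a => ⟨fun x y => ?_⟩⟩
    · exact congrArg Prod.fst (h1.elim (x, 0) (y, 0))
    · have h2 := congrFun (congrArg Prod.snd (h1.elim (0, Pi.single a x) (0, Pi.single a y))) a
      simpa only [Pi.single_eq_same] using h2
  · rintro ⟨h1, h2⟩
    have h3 : Subsingleton (T.A l P) := h1
    have h4 : ∀ a : Fin (N - d - 1), Subsingleton (T.A (l - (a + 1)) X) := h2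
    exact e.injective.subsingleton

/-- The coniveau of a blow-up of the projective space. -/
lemma coniveau_blowUp (hT : IsCycles T) {X Y : Sch k} {d N : ℕ} {i : X ⟶ PP k N} {π : Y ⟶ PP k N}
    (hc : Center i d N) (hπ : IsBlowUp i π) {c : ℤ} (h : T.Coniveau c X) : T.Coniveau (c + 1) Y := by
  intro p q hpq hmin
  rw [hT.hodge i π d N hc hπ, hT.space_hodge N p q hpq, zero_add]
  refine Finset.sum_eq_zero fun a _ => h _ _ (fun h' => hpq (by omega)) ?_
  have : (0 : ℤ) ≤ ((a : ℕ) : ℤ) := Int.natCast_nonneg _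
  omega

/-- One variety of coniveau `≥ c` and one group of a rational variety of coniveau `≥ c + 1`. -/
theorem bloch_one (G : Geometry k) (hT : IsCycles T) {X : Sch k} (hX : SmoothProj X) {d : ℕ} (hd : Dim X d)
    {c : ℕ} (hcon : T.Coniveau c X) {N : ℕ} (hN : 2 * d + 1 ≤ N) (hN' : d + c + 1 ≤ N) :
    ∃ (i : X ⟶ PP k N) (Y : Sch k) (π : Y ⟶ PP k N), Center i d N ∧ IsBlowUp i π ∧ RatVar N Y ∧
      T.Coniveau (c + 1) Y ∧ ((∀ l : ℤ, l < c → T.Zero l X) ↔ T.Zero c Y) ∧
      ∀ l : ℤ, T.Zero l Y ↔ ∀ a : Fin (N - d - 1), T.Zero (l - (a + 1)) X := by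
  obtain ⟨i, Y, π, hc, hπ, hY⟩ := G.exists_rat hX hd hN
  have h0 : ∀ l : ℤ, T.Zero l Y ↔ ∀ a : Fin (N - d - 1), T.Zero (l - (a + 1)) X := fun l => by
    rw [zero_blowUp hT hc hπ l]
    exact and_iff_right (hT.space N l)
  refine ⟨i, Y, π, hc, hπ, hY, coniveau_blowUp hT hc hπ hcon, ?_, h0⟩
  rw [h0]
  constructor
  · intro h a
    have : (0 : ℤ) ≤ ((a : ℕ) : ℤ) := Int.natCast_nonneg _
    exact h _ (by omega)
  · intro h l hl
    by_cases hl0 : l < 0
    · exact hT.neg X hX l hl0
    · have h2 := h ⟨((c : ℤ) - l - 1).toNat, by omega⟩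
      have h3 : (c : ℤ) - (((((c : ℤ) - l - 1).toNat : ℕ) : ℤ) + 1) = l := by omega
      simpa only [h3] using h2

/-- The question for varieties of coniveau `≥ c`. -/
def Cycles.Question (T : Cycles.{u} k) (c : ℕ) : Prop :=
  ∀ X : Sch k, SmoothProj X → T.Coniveau c X → ∀ l : ℤ, 0 ≤ l → l < c → T.Zero l X

/-- The question for the top group of the rational varieties of coniveau `≥ c`. -/
def Cycles.Top (T : Cycles.{u} k) (c : ℕ) : Prop :=
  ∀ (N : ℕ) (Y : Sch k), RatVar N Y → T.Coniveau c Y → T.Zero (c - 1) Y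

lemma question_of_top (G : Geometry k) (hT : IsCycles T) {c : ℕ} (h : T.Top (c + 1)) : T.Question c := by
  intro X hX hcon l _ hl
  obtain ⟨d, hd, -⟩ := G.embedding X hX
  obtain ⟨i, Y, π, -, -, hY, hY', hiff, -⟩ := bloch_one G hT hX hd hcon (N := 2 * d + 1 + c) (by omega)
    (by omega)
  have h1 := h _ Y hY (by exact_mod_cast hY')
  have h2 : (((c + 1 : ℕ) : ℤ) - 1) = c := by
    push_cast
    ring
  rw [h2] at h1
  exact hiff.mpr h1 l hl

lemma top_of_question {c : ℕ} (hc : 1 ≤ c) (h : T.Question c) : T.Top c :=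
  fun _ Y hY hcon => h Y hY.smooth hcon _ (by omega) (by omega)

/-- The question for `c` follows from the one for the top groups of rational varieties of coniveau `≥ c'`. -/
theorem question_of_top_lt (G : Geometry k) (hT : IsCycles T) {c : ℕ} : ∀ t : ℕ, T.Top (c + t + 1) →
    T.Question c := by
  intro t
  induction t with
  | zero => exact question_of_top G hT
  | succ t ih => exact fun h => ih (top_of_question (by omega) (question_of_top G hT h))

theorem bloch_main (G : Geometry k) (hT : IsCycles T) {S : Set ℕ} (hS : S.Infinite) :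
    (∀ c : ℕ, T.Question c) ↔ ∀ c ∈ S, 1 ≤ c → T.Top c := by
  constructor
  · exact fun h c _ hc => top_of_question hc (h c)
  · intro h c
    obtain ⟨c', hc', hlt⟩ := hS.exists_gt c
    obtain ⟨t, rfl⟩ := Nat.exists_eq_add_of_lt hlt
    exact question_of_top_lt G hT t (h _ hc' (by omega))

end Pool.Agent.Run7.h954.RV
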