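import Pool.Agent.Run7.h954.RV.Geom

/-!
# Reduction to rational varieties: the common part
-/

set_option autoImplicit false

open CategoryTheory CategoryTheory.Limits AlgebraicGeometry MvPolynomial

universe u

namespace Pool.Agent.Run7.h954.RV

variable {k : Type} [Field k]

/-- `X` has dimension `d`. -/
def Dim (X : Sch k) (d : ℕ) : Prop := topologicalKrullDim X.left = d

/-- `i : X ⟶ P` is a closed immersion of smooth projective varieties, `X` has dimension `d` and `P` has
dimension `N > d`. -/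
structure Center {X P : Sch k} (i : X ⟶ P) (d N : ℕ) : Prop where
  smooth : SmoothProj X
  ambient : SmoothProj P
  closed : IsClosedImmersion i.left
  dimX : Dim X d
  dimP : Dim P N
  lt : d < N

/-- Birational morphisms. -/
def Birat {Y' Y : Sch k} (f : Y' ⟶ Y) : Prop :=
  ∃ U : Y.left.Opens, (U : Set Y.left).Nonempty ∧ IsIso (f.left ∣_ U)

/-- `Y` is obtained from the projective space of dimension `N` by finitely many blow-ups with smooth centres. -/
inductive Tower (k : Type) [Field k] (N : ℕ) : Sch k → Prop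
  | base : Tower k N (PP k N)
  | step {X P Y : Sch k} (d : ℕ) (i : X ⟶ P) (π : Y ⟶ P) : Tower k N P → Center i d N → IsBlowUp i π →
      Tower k N Y

/-- Well known properties of smooth projective varieties over an infinite field `k`; `hironaka` is Hironaka's
theorem (elimination of indeterminacies of rational maps from the projective space, characteristic zero). -/
structure Geometry (k : Type) [Field k] : Prop where
  space : ∀ N, SmoothProj (PP k N) ∧ Dim (PP k N) N
  embedding : ∀ X : Sch k, SmoothProj X → ∃ d, Dim X d ∧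
    ∀ N, 2 * d + 1 ≤ N → ∃ i : X ⟶ PP k N, IsClosedImmersion i.left
  exists_blowUp : ∀ {X P : Sch k} (i : X ⟶ P) (d N : ℕ), Center i d N →
    ∃ (Y : Sch k) (π : Y ⟶ P), IsBlowUp i π
  smooth_blowUp : ∀ {X P Y : Sch k} (i : X ⟶ P) (π : Y ⟶ P) (d N : ℕ), Center i d N → IsBlowUp i π →
    SmoothProj Y ∧ Dim Y N
  hironaka : ∀ (N : ℕ) (Y : Sch k), SmoothProj Y → Dim Y N → Rational N Y →
    ∃ (Y' : Sch k) (f : Y' ⟶ Y), Tower k N Y' ∧ Birat f

/-- Smooth projective rational varieties of dimension `N`. -/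
structure RatVar (N : ℕ) (Y : Sch k) : Prop where
  smooth : SmoothProj Y
  dim : Dim Y N
  rational : Rational N Y

/-- Properties `Q m X`, `m ∈ ℤ`, of smooth projective varieties which are compatible with blow-ups. -/
structure Compatible (B : ℕ) (Q : ℤ → Sch k → Prop) : Prop where
  blowUp : ∀ {X P Y : Sch k} (i : X ⟶ P) (π : Y ⟶ P) (d N : ℕ), Center i d N → IsBlowUp i π →
    ∀ m, Q m Y ↔ Q m P ∧ ∀ a : Fin (N - d - 1), Q (m - (a + 1)) X
  birat : ∀ {Y' Y : Sch k} (f : Y' ⟶ Y), SmoothProj Y' → SmoothProj Y → Birat f → ∀ m, Q m Y' → Q m Y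
  space : ∀ N m, Q m (PP k N)
  vanish : ∀ (X : Sch k) (d : ℕ), SmoothProj X → Dim X d → ∀ m : ℤ, m ≤ -B ∨ d + B < m → Q m X

variable {B : ℕ} {Q : ℤ → Sch k → Prop}

/-- The blow-up of a projective space in `X` is rational. -/
lemma Geometry.exists_rat (G : Geometry k) {X : Sch k} (hX : SmoothProj X) {d : ℕ} (hd : Dim X d) {N : ℕ}
    (hN : 2 * d + 1 ≤ N) : ∃ (i : X ⟶ PP k N) (Y : Sch k) (π : Y ⟶ PP k N), Center i d N ∧ IsBlowUp i π ∧
      RatVar N Y := by
  obtain ⟨d', hd', h⟩ := G.embedding X hX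
  have hdd : d' = d := by
    have h1 := hd'.symm.trans hd
    exact_mod_cast h1
  subst hdd
  obtain ⟨i, hi⟩ := h N hN
  have hc : Center i d' N := ⟨hX, (G.space N).1, hi, hd, (G.space N).2, by omega⟩
  obtain ⟨Y, π, hπ⟩ := G.exists_blowUp i d' N hc
  obtain ⟨h1, h2⟩ := G.smooth_blowUp i π d' N hc hπ
  have := hc.closed
  have := h1.connected
  exact ⟨i, Y, π, hc, hπ, h1, h2, rational_of_isBlowUp hπ⟩

/-- The middle degree of the blow-up contains all degrees of `X`. -/
theorem middle (hQ : Compatible B Q) {X Y : Sch k} {d n : ℕ} (hn : d + B + 1 ≤ n)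
    {i : X ⟶ PP k (2 * n - 1)} {π : Y ⟶ PP k (2 * n - 1)} (hc : Center i d (2 * n - 1))
    (hπ : IsBlowUp i π) : (∀ m, Q m X) ↔ Q n Y := by
  rw [hQ.blowUp i π d (2 * n - 1) hc hπ]
  constructor
  · exact fun h => ⟨hQ.space _ _, fun a => h _⟩
  · rintro ⟨-, h⟩ m
    by_cases hm : m ≤ -B ∨ d + B < m
    · exact hQ.vanish X d hc.smooth hc.dimX m hm
    · push Not at hm
      have h1 : (n : ℤ) - m - 1 = ((n - m - 1).toNat : ℕ) := (Int.toNat_of_nonneg (by omega)).symm
      have h2 := h ⟨(n - m - 1).toNat, by omega⟩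
      have h3 : (n : ℤ) - ((((n : ℤ) - m - 1).toNat : ℕ) + 1) = m := by omega
      simpa only [h3] using h2

/-- The same for the projective space of dimension `2 D + 1` (`B = 0`). -/
theorem middle_dim (hQ : Compatible 0 Q) {X Y : Sch k} {d D : ℕ} (hD : d ≤ D)
    {i : X ⟶ PP k (2 * D + 1)} {π : Y ⟶ PP k (2 * D + 1)} (hc : Center i d (2 * D + 1))
    (hπ : IsBlowUp i π) : (∀ m, Q m X) ↔ Q (D + 1) Y := by
  have h := middle (n := D + 1) hQ (by omega) (i := i) (π := π) hc hπ
  simpa using h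

/-- The property for all varieties and all degrees is the property for the middle degree of rational
varieties of odd dimension `2 n - 1`, `n` in an infinite set. -/
theorem infinite (G : Geometry k) (hQ : Compatible B Q) {S : Set ℕ} (hS : S.Infinite) :
    (∀ X : Sch k, SmoothProj X → ∀ m, Q m X) ↔
      ∀ n ∈ S, ∀ Y : Sch k, RatVar (2 * n - 1) Y → Q n Y := by
  constructor
  · exact fun h n _ Y hY => h Y hY.smooth n
  · intro h X hX
    obtain ⟨d, hd, -⟩ := G.embedding X hX
    obtain ⟨n, hnS, hn⟩ := hS.exists_gt (d + B)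
    obtain ⟨i, Y, π, hc, hπ, hY⟩ := G.exists_rat hX hd (N := 2 * n - 1) (by omega)
    exact (middle hQ (by omega) hc hπ).mpr (h n hnS Y hY)

lemma tower_smooth (G : Geometry k) {N : ℕ} {Y : Sch k} (hY : Tower k N Y) : SmoothProj Y ∧ Dim Y N := by
  induction hY with
  | base => exact G.space N
  | step d i π _ hc hπ ih => exact G.smooth_blowUp i π d N hc hπ

lemma tower_level (hQ : Compatible B Q) {m : ℤ} (h : ∀ X : Sch k, SmoothProj X → ∀ b ≤ m, Q b X)
    {N : ℕ} {Y : Sch k} (hY : Tower k N Y) : ∀ b ≤ m + 1, Q b Y := by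
  induction hY with
  | base => exact fun b _ => hQ.space N b
  | step d i π hP hc hπ ih =>
    intro b hb
    rw [hQ.blowUp i π d N hc hπ]
    refine ⟨ih b hb, fun a => h _ hc.smooth _ ?_⟩
    have : (0 : ℤ) ≤ ((a : ℕ) : ℤ) := Int.natCast_nonneg _
    omega

/-- Degrees at most `m` for all varieties and degree `m + 1` for rational varieties. -/
theorem level (G : Geometry k) (hQ : Compatible B Q) (m : ℤ) :
    (∀ X : Sch k, SmoothProj X → ∀ b ≤ m, Q b X) ↔
      ∀ (N : ℕ) (Y : Sch k), RatVar N Y → Q (m + 1) Y := by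
  constructor
  · intro h N Y hY
    obtain ⟨Y', f, hY', hf⟩ := G.hironaka N Y hY.smooth hY.dim hY.rational
    exact hQ.birat f (tower_smooth G hY').1 hY.smooth hf _ (tower_level hQ h hY' _ le_rfl)
  · intro h X hX b hb
    obtain ⟨d, hd, -⟩ := G.embedding X hX
    obtain ⟨i, Y, π, hc, hπ, hY⟩ := G.exists_rat hX hd (N := 2 * d + 1 + (m + 1 - b).toNat + B) (by omega)
    have h1 := ((hQ.blowUp i π d _ hc hπ (m + 1)).mp (h _ Y hY)).2
    have h2 := h1 ⟨(m - b).toNat, by omega⟩
    have h3 : m + 1 - ((((m - b).toNat : ℕ) : ℤ) + 1) = b := by omega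
    simpa only [h3] using h2

end Pool.Agent.Run7.h954.RV
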