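import Mathlib

/-!
# Blow-ups of projective spaces are rational

Blow-ups are defined by their universal property. The blow-up of a projective space in a closed subscheme
contains the complement of the subscheme as an open subscheme; it is nonempty, so the blow-up is rational.
-/

set_option autoImplicit false

open CategoryTheory CategoryTheory.Limits AlgebraicGeometry MvPolynomial

universe u

namespace Pool.Agent.Run7.h954.RV

/-- Schemes over the field `k`. -/
abbrev Sch (k : Type) [Field k] : Type 1 := Over (Spec (CommRingCat.of k))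

/-- The graded ring `k[x_0, ..., x_N]`. -/
abbrev gr (k : Type) [Field k] (N : ℕ) : ℕ → Submodule k (MvPolynomial (Fin (N + 1)) k) :=
  homogeneousSubmodule (Fin (N + 1)) k

noncomputable instance (k : Type) [Field k] (N : ℕ) : GradedAlgebra (gr k N) := MvPolynomial.gradedAlgebra

/-- The projective space of dimension `N` over `k`. -/
noncomputable def PP (k : Type) [Field k] (N : ℕ) : Sch k :=
  Over.mk (Proj.toSpecZero (gr k N) ≫ Spec.map (CommRingCat.ofHom (algebraMap k (gr k N 0))))

variable {k : Type} [Field k]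

/-- Smooth projective varieties (connected, not necessarily geometrically connected) over `k`. -/
structure SmoothProj (X : Sch k) : Prop where
  smooth : Smooth X.hom
  projective : ∃ (N : ℕ) (i : X ⟶ PP k N), IsClosedImmersion i.left
  connected : ConnectedSpace X.left

/-- `Y` is rational, of dimension `N`: a nonempty open subscheme of `Y` is isomorphic to an open subscheme of
the projective space of dimension `N`. -/
def Rational (N : ℕ) (Y : Sch k) : Prop :=
  ∃ (U : Sch k) (a : U ⟶ Y) (b : U ⟶ PP k N), Nonempty U.left ∧ IsOpenImmersion a.left ∧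
    IsOpenImmersion b.left

/-- `D` is an effective Cartier divisor on `Z`: a closed subscheme which is locally given by one equation that is
not a zero divisor. -/
def Cartier {D Z : Scheme.{0}} (j : D ⟶ Z) : Prop :=
  IsClosedImmersion j ∧ ∀ z : Z, ∃ V : Z.affineOpens, z ∈ V.1 ∧ ∃ f ∈ nonZeroDivisors Γ(Z, V.1),
    j.ker.ideal V = Ideal.span {f}

/-- `π : Y ⟶ P` is the blow-up of `P` along the closed subscheme `X`: the inverse image of `X` in `Y` is an
effective Cartier divisor, and `π` is universal with this property. -/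
structure IsBlowUp {X P Y : Sch k} (i : X ⟶ P) (π : Y ⟶ P) : Prop where
  cartier : Cartier (pullback.snd i.left π.left)
  lift : ∀ (Z : Scheme.{0}) (g : Z ⟶ P.left), Cartier (pullback.snd i.left g) →
    ∃! h : Z ⟶ Y.left, h ≫ π.left = g

/-- An empty closed subscheme is an effective Cartier divisor. -/
lemma cartier_of_isEmpty {D Z : Scheme.{0}} (j : D ⟶ Z) [IsEmpty D] : Cartier j := by
  refine ⟨inferInstance, fun z => ?_⟩
  obtain ⟨_, ⟨V, hV, rfl⟩, hz, -⟩ := Z.isBasis_affineOpens.exists_subset_of_mem_open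
    (Set.mem_univ z) isOpen_univ
  refine ⟨⟨V, hV⟩, hz, 1, one_mem _, ?_⟩
  rw [Ideal.span_singleton_one, (Scheme.Hom.ker_eq_top_iff_isEmpty j).mpr inferInstance]
  rfl

lemma not_surjective {D Z : Scheme.{0}} (j : D ⟶ Z) (hj : Cartier j) [hZ : Nonempty Z] :
    ¬ Function.Surjective j := by
  intro hs
  obtain ⟨hcl, h⟩ := hj
  obtain ⟨z⟩ := hZ
  obtain ⟨V, hz, f, hf, hI⟩ := h z
  have h1 : ∀ x : Z, x ∈ Z.zeroLocus (U := V.1) (j.ker.ideal V) := fun x => by
    obtain ⟨d, rfl⟩ := hs x
    exact Scheme.IdealSheafData.mem_support_iff.mp (j.range_subset_ker_support ⟨d, rfl⟩) V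
  have h2 : Z.basicOpen f = ⊥ := by
    apply le_bot_iff.mp
    intro x hx
    exact (Scheme.mem_zeroLocus_iff (X := Z) (U := V.1) _ _).mp (h1 x) f
      (by rw [hI]; exact Ideal.mem_span_singleton_self f) hx
  have h3 : IsNilpotent f := (Scheme.isNilpotent_iff_basicOpen_eq_bot_of_isCompact V.2.isCompact f).mpr h2
  obtain ⟨n, hn⟩ := h3
  have h4 : (f ^ n) ∈ nonZeroDivisors Γ(Z, V.1) := pow_mem hf n
  rw [hn] at h4
  have h5 : (1 : Γ(Z, V.1)) = 0 := (mem_nonZeroDivisors_iff.mp h4).1 1 (by simp)
  have h6 : (1 : Z.presheaf.stalk z) = 0 := by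
    have := congrArg (Z.presheaf.germ V.1 z hz).hom h5
    rwa [map_one, map_zero] at this
  exact one_ne_zero h6

lemma isEmpty_pullback {X P Z : Scheme.{0}} (i : X ⟶ P) (g : Z ⟶ P)
    (h : ∀ z : Z, g z ∉ Set.range i) : IsEmpty (pullback i g : Scheme) := by
  refine ⟨fun p => h (pullback.snd i g p) ⟨pullback.fst i g p, ?_⟩⟩
  rw [← Scheme.Hom.comp_apply, ← Scheme.Hom.comp_apply, pullback.condition]

/-- Over the complement of the centre the blow-up is an isomorphism. -/
lemma exists_open {X P Y : Sch k} {i : X ⟶ P} {π : Y ⟶ P} (h : IsBlowUp i π) (U : P.left.Opens)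
    (hU : ∀ p ∈ U, p ∉ Set.range i.left) :
    ∃ a : U.toScheme ⟶ Y.left, IsOpenImmersion a ∧ a ≫ π.left = U.ι := by
  have hemp : IsEmpty (pullback i.left U.ι : Scheme) := isEmpty_pullback _ _ fun z => hU _ z.2
  obtain ⟨a, ha, -⟩ := h.lift U.toScheme U.ι (cartier_of_isEmpty _)
  let W : Y.left.Opens := π.left ⁻¹ᵁ U
  have hemp' : IsEmpty (pullback i.left (W.ι ≫ π.left) : Scheme) := isEmpty_pullback _ _ fun z => by
    rw [Scheme.Hom.comp_apply]
    exact hU _ z.2
  obtain ⟨b, -, hb⟩ := h.lift W.toScheme (W.ι ≫ π.left) (cartier_of_isEmpty _)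
  have hr : Set.range a ⊆ Set.range W.ι := by
    rintro _ ⟨x, rfl⟩
    rw [Scheme.Opens.range_ι]
    change π.left (a x) ∈ U
    rw [← Scheme.Hom.comp_apply, ha]
    exact x.2
  let a' : U.toScheme ⟶ W.toScheme := IsOpenImmersion.lift W.ι a hr
  have ha' : a' ≫ W.ι = a := IsOpenImmersion.lift_fac _ _ _
  have h1 : a' ≫ (π.left ∣_ U) = 𝟙 _ := by
    rw [← cancel_mono U.ι, Category.assoc, morphismRestrict_ι, ← Category.assoc, ha', ha, Category.id_comp]
  have h2 : (π.left ∣_ U) ≫ a' = 𝟙 _ := by
    rw [← cancel_mono W.ι, Category.assoc, ha', Category.id_comp]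
    rw [hb ((π.left ∣_ U) ≫ a) (by
      change _ = _
      rw [Category.assoc, ha, morphismRestrict_ι]), hb W.ι rfl]
  have h3 : IsIso a' := ⟨_, h1, h2⟩
  refine ⟨a, ?_, ha⟩
  rw [← ha']
  infer_instance

/-- Blow-ups of the projective space are rational. -/
theorem rational_of_isBlowUp {N : ℕ} {X Y : Sch k} {i : X ⟶ PP k N} [IsClosedImmersion i.left]
    {π : Y ⟶ PP k N} (h : IsBlowUp i π) [Nonempty Y.left] : Rational N Y := by
  have hns : ¬ Function.Surjective i.left := by
    intro hs
    refine not_surjective _ h.cartier ?_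
    have : Surjective i.left := ⟨hs⟩
    have h2 : Surjective (pullback.snd i.left π.left) := inferInstance
    exact h2.surj
  let U : (PP k N).left.Opens := ⟨(Set.range i.left)ᶜ, i.left.isClosedEmbedding.isClosed_range.isOpen_compl⟩
  obtain ⟨a, ha, haπ⟩ := exists_open h U fun p hp => hp
  refine ⟨Over.mk (U.ι ≫ (PP k N).hom), Over.homMk a ?_, Over.homMk U.ι rfl, ?_, ha, ?_⟩
  · change a ≫ Y.hom = U.ι ≫ (PP k N).hom
    rw [← Over.w π, ← Category.assoc, haπ]
  · rw [Function.Surjective] at hns
    obtain ⟨p, hp⟩ := not_forall.mp hns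
    exact ⟨⟨p, hp⟩⟩
  · change IsOpenImmersion U.ι
    infer_instance

end Pool.Agent.Run7.h954.RV
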