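import Pool.Agent.Run7.h954.RV.AJ

/-!
# `p`-adic Abel-Jacobi maps over number fields and rational varieties over `ℚ`
-/

set_option autoImplicit false

open CategoryTheory CategoryTheory.Limits AlgebraicGeometry MvPolynomial

universe u

namespace Pool.Agent.Run7.h954.RV

/-- Schemes over the number field `K`, considered as schemes over `ℚ`. -/
noncomputable def res (K : Type) [Field K] [NumberField K] : Sch K ⥤ Sch ℚ :=
  Over.map (Spec.map (CommRingCat.ofHom (algebraMap ℚ K)))

/-- Theories for all number fields and all primes. -/
abbrev Family : Type _ := ∀ (K : Type) [Field K] [NumberField K], Nat.Primes → Theory.{u} K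

/-- Smooth projective varieties over `K` are smooth projective over `ℚ`, with the same groups and maps
(Shapiro's lemma). -/
def Shapiro (T : Family.{u}) : Prop :=
  ∀ (K : Type) [Field K] [NumberField K] (X : Sch K), SmoothProj X → SmoothProj ((res K).obj X) ∧
    ∀ p m, IsoHom ((T K p).aj m X) ((T ℚ p).aj m ((res K).obj X))

/-- Sets of endomorphisms of the groups of cycles: the actions of the idempotent self-correspondences of `X` of
degree zero. The motive is `(X, e, m)`, its Chow group consists of the `z` with `e z = z`. -/
abbrev Corr (T : Family.{u}) : Type _ :=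
  ∀ (K : Type) [Field K] [NumberField K] (p : Nat.Primes) (m : ℤ) (X : Sch K),
    Set ((T K p).C m X →+ (T K p).C m X)

/-- The question, for the prime `p`: for all number fields `K` and all Chow motives `(X, e, m)` over `K` the map
is injective. -/
def Question (T : Family.{u}) (E : Corr T) (p : Nat.Primes) : Prop :=
  ∀ (K : Type) [Field K] [NumberField K] (X : Sch K), SmoothProj X → ∀ m, ∀ e ∈ E K p m X,
    ∀ z, e z = z → (T K p).aj m X z = 0 → z = 0

lemma question_iff {T : Family.{u}} {E : Corr T} (hres : Shapiro T)
    (hE : ∀ (p : Nat.Primes) (m : ℤ) (X : Sch ℚ), AddMonoidHom.id _ ∈ E ℚ p m X) (p : Nat.Primes) :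
    Question T E p ↔ ∀ X : Sch ℚ, SmoothProj X → ∀ m, (T ℚ p).Inj m X := by
  constructor
  · intro h X hX m
    refine (injective_iff_map_eq_zero ((T ℚ p).aj m X)).mpr fun z hz => ?_
    exact h ℚ X hX m _ (hE p m X) z rfl hz
  · intro h K _ _ X hX m e _ z _ hz
    obtain ⟨hX', hiso⟩ := hres K X hX
    have h1 := (inj_iff_of_isoHom (hiso p m)).mpr (h _ hX' m)
    exact (injective_iff_map_eq_zero ((T K p).aj m X)).mp h1 z hz

end Pool.Agent.Run7.h954.RV
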