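import Pool.Agent.Run7.h954.RV.AJ

/-!
# Abel-Jacobi maps of quasi-projective varieties and affine rational varieties
-/

set_option autoImplicit false

open CategoryTheory CategoryTheory.Limits AlgebraicGeometry MvPolynomial

universe u

namespace Pool.Agent.Run7.h954.RV

variable {k : Type} [Field k]

/-- Smooth quasi-projective varieties (connected) over `k`. -/
structure SmoothQP (X : Sch k) : Prop where
  smooth : Smooth X.hom
  quasiProjective : ∃ (N : ℕ) (i : X ⟶ PP k N), IsImmersion i.left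
  connected : ConnectedSpace X.left

/-- `i : X ⟶ U` is a closed immersion, `X` is smooth of dimension `d < N`, and `j : U ⟶ P^N` is an open
immersion. -/
structure QCenter {X U : Sch k} {N : ℕ} (i : X ⟶ U) (j : U ⟶ PP k N) (d : ℕ) : Prop where
  smooth : SmoothQP X
  closed : IsClosedImmersion i.left
  isOpen : IsOpenImmersion j.left
  dimX : Dim X d
  lt : d < N

/-- Smooth quasi-projective rational varieties of dimension `N`. -/
structure QRatVar (N : ℕ) (Y : Sch k) : Prop where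
  smooth : SmoothQP Y
  dim : Dim Y N
  rational : Rational N Y

/-- Smooth affine rational varieties. -/
structure AffRat (W : Sch k) : Prop where
  smooth : SmoothQP W
  affine : IsAffine W.left
  rational : ∃ N, Rational N W

/-- Well known properties of smooth quasi-projective varieties over an infinite field `k`. -/
structure QGeometry (k : Type) [Field k] : Prop where
  embedding : ∀ X : Sch k, SmoothQP X → ∃ d, Dim X d ∧
    ∀ N, 2 * d + 1 ≤ N → ∃ (U : Sch k) (i : X ⟶ U) (j : U ⟶ PP k N), IsClosedImmersion i.left ∧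
      IsOpenImmersion j.left
  exists_blowUp : ∀ {X U : Sch k} {N : ℕ} (i : X ⟶ U) (j : U ⟶ PP k N) (d : ℕ), QCenter i j d →
    ∃ (Y : Sch k) (π : Y ⟶ U), IsBlowUp i π
  smooth_blowUp : ∀ {X U Y : Sch k} {N : ℕ} (i : X ⟶ U) (j : U ⟶ PP k N) (π : Y ⟶ U) (d : ℕ),
    QCenter i j d → IsBlowUp i π → SmoothQP Y ∧ Dim Y N

/-- Well known properties of the Abel-Jacobi maps of smooth quasi-projective varieties. -/
structure QAJ (T : Theory.{u} k) : Prop where
  /-- The formula for blow-ups with smooth centres. -/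
  blowUp : ∀ {X U Y : Sch k} {N : ℕ} (i : X ⟶ U) (j : U ⟶ PP k N) (π : Y ⟶ U) (d : ℕ),
    QCenter i j d → IsBlowUp i π →
      ∀ m, IsoHom (T.aj m Y) ((T.aj m U).prodMap (T.sum (N - d - 1) m X))
  /-- There are no homologically trivial cycles on open subschemes of the projective space. -/
  space : ∀ (N : ℕ) (U : Sch k) (j : U ⟶ PP k N), IsOpenImmersion j.left → ∀ m, Subsingleton (T.C m U)
  /-- There are no homologically trivial cycles of codimension `m` for `m ≤ 0` and for `m > dim X`. -/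
  vanish : ∀ (X : Sch k) (d : ℕ), SmoothQP X → Dim X d → ∀ m : ℤ, m ≤ 0 ∨ d < m →
    Subsingleton (T.C m X)
  /-- Jouanolou's device: an affine bundle over `X` which is affine; it is rational if `X` is. -/
  jouanolou : ∀ X : Sch k, SmoothQP X → ∃ W : Sch k, SmoothQP W ∧ IsAffine W.left ∧
    (∀ m, IsoHom (T.aj m X) (T.aj m W)) ∧ ∀ N, Rational N X → ∃ N', Rational N' W

variable {T : Theory.{u} k}

/-- Blow-ups of open subschemes of the projective space are rational. -/
theorem rational_of_isBlowUp' {N : ℕ} {X U Y : Sch k} {i : X ⟶ U} {j : U ⟶ PP k N} {π : Y ⟶ U}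
    (hi : IsClosedImmersion i.left) (hj : IsOpenImmersion j.left) (h : IsBlowUp i π) [Nonempty Y.left] :
    Rational N Y := by
  have hns : ¬ Function.Surjective i.left := by
    intro hs
    refine not_surjective _ h.cartier ?_
    have : Surjective i.left := ⟨hs⟩
    have h2 : Surjective (pullback.snd i.left π.left) := inferInstance
    exact h2.surj
  let V : U.left.Opens := ⟨(Set.range i.left)ᶜ, i.left.isClosedEmbedding.isClosed_range.isOpen_compl⟩
  obtain ⟨a, ha, haπ⟩ := exists_open h V fun p hp => hp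
  refine ⟨Over.mk (V.ι ≫ U.hom), Over.homMk a ?_, Over.homMk (V.ι ≫ j.left) ?_, ?_, ha, ?_⟩
  · change a ≫ Y.hom = V.ι ≫ U.hom
    rw [← Over.w π, ← Category.assoc, haπ]
  · change (V.ι ≫ j.left) ≫ (PP k N).hom = V.ι ≫ U.hom
    rw [Category.assoc, Over.w j]
  · obtain ⟨p, hp⟩ := not_forall.mp hns
    exact ⟨⟨p, hp⟩⟩
  · change IsOpenImmersion (V.ι ≫ j.left)
    infer_instance

lemma QGeometry.exists_rat (G : QGeometry k) {X : Sch k} (hX : SmoothQP X) {d : ℕ} (hd : Dim X d) {N : ℕ}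
    (hN : 2 * d + 1 ≤ N) : ∃ (U : Sch k) (i : X ⟶ U) (j : U ⟶ PP k N) (Y : Sch k) (π : Y ⟶ U),
      QCenter i j d ∧ IsBlowUp i π ∧ QRatVar N Y := by
  obtain ⟨d', hd', h⟩ := G.embedding X hX
  have hdd : d' = d := by
    have h1 := hd'.symm.trans hd
    exact_mod_cast h1
  subst hdd
  obtain ⟨U, i, j, hi, hj⟩ := h N hN
  have hc : QCenter i j d' := ⟨hX, hi, hj, hd, by omega⟩
  obtain ⟨Y, π, hπ⟩ := G.exists_blowUp i j d' hc
  obtain ⟨h1, h2⟩ := G.smooth_blowUp i j π d' hc hπ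
  have := h1.connected
  exact ⟨U, i, j, Y, π, hc, hπ, h1, h2, rational_of_isBlowUp' hi hj hπ⟩

lemma QAJ.inj_blowUp (hT : QAJ T) {X U Y : Sch k} {N : ℕ} {i : X ⟶ U} {j : U ⟶ PP k N} {π : Y ⟶ U} {d : ℕ}
    (hc : QCenter i j d) (hπ : IsBlowUp i π) (m : ℤ) :
    T.Inj m Y ↔ ∀ a : Fin (N - d - 1), T.Inj (m - (a + 1)) X := by
  rw [Theory.Inj, inj_iff_of_isoHom (hT.blowUp i j π d hc hπ m), ← inj_sum]
  have h1 := hT.space N U j hc.isOpen m
  refine (Prod.map_injective (f := ⇑(T.aj m _)) (g := ⇑(T.sum (N - d - 1) m _))).trans ?_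
  exact and_iff_right (Function.injective_of_subsingleton _)

/-- The kernels of the Abel-Jacobi maps of the blow-up. -/
lemma QAJ.kernel (hT : QAJ T) {X U Y : Sch k} {N : ℕ} {i : X ⟶ U} {j : U ⟶ PP k N} {π : Y ⟶ U} {d : ℕ}
    (hc : QCenter i j d) (hπ : IsBlowUp i π) (m : ℤ) :
    Nonempty ((T.aj m Y).ker ≃+ (∀ a : Fin (N - d - 1), (T.aj (m - (a + 1)) X).ker)) := by
  obtain ⟨α, β, h⟩ := hT.blowUp i j π d hc hπ m
  have hs := hT.space N U j hc.isOpen m
  refine ⟨{
    toFun := fun x a => ⟨(α x.1).2 a, ?_⟩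
    invFun := fun f => ⟨α.symm (0, fun a => (f a).1), ?_⟩
    left_inv := ?_
    right_inv := ?_
    map_add' := ?_ }⟩
  · have h1 := h x.1
    rw [AddMonoidHom.mem_ker.mp x.2, map_zero] at h1
    exact congrFun (congrArg Prod.snd h1) a
  · rw [AddMonoidHom.mem_ker]
    apply β.injective
    rw [← h, α.apply_symm_apply, map_zero]
    apply Prod.ext
    · exact (T.aj m U).map_zero
    · funext a
      exact (f a).2
  · intro x
    apply Subtype.ext
    change α.symm (0, fun a => (α x.1).2 a) = x.1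
    rw [AddEquiv.symm_apply_eq]
    exact Prod.ext (Subsingleton.elim _ _) rfl
  · intro f
    funext a
    apply Subtype.ext
    change (α (α.symm (0, fun a => (f a).1))).2 a = (f a).1
    rw [α.apply_symm_apply]
  · intro x y
    funext a
    apply Subtype.ext
    change (α (x.1 + y.1)).2 a = (α x.1).2 a + (α y.1).2 a
    rw [map_add]
    rfl

/-- The middle degree of the blow-up contains all degrees of `X`. -/
theorem qmiddle (hT : QAJ T) {X U Y : Sch k} {d n : ℕ} (hn : d + 1 ≤ n)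
    {i : X ⟶ U} {j : U ⟶ PP k (2 * n - 1)} {π : Y ⟶ U} (hc : QCenter i j d)
    (hπ : IsBlowUp i π) : (∀ m, T.Inj m X) ↔ T.Inj n Y := by
  rw [hT.inj_blowUp hc hπ]
  constructor
  · exact fun h a => h _
  · intro h m
    by_cases hm : m ≤ 0 ∨ d < m
    · have := hT.vanish X d hc.smooth hc.dimX m hm
      exact Function.injective_of_subsingleton _
    · push Not at hm
      have h2 := h ⟨((n : ℤ) - m - 1).toNat, by omega⟩
      have h3 : (n : ℤ) - ((((n : ℤ) - m - 1).toNat : ℕ) + 1) = m := by omega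
      simpa only [h3] using h2

/-- One variety. -/
theorem qone (G : QGeometry k) (hT : QAJ T) {X : Sch k} (hX : SmoothQP X) {d : ℕ} (hd : Dim X d) {n : ℕ}
    (hn : d + 1 ≤ n) : ∃ Y W : Sch k, QRatVar (2 * n - 1) Y ∧ AffRat W ∧
      ((∀ m, T.Inj m X) ↔ T.Inj n Y) ∧ ((∀ m, T.Inj m X) ↔ T.Inj n W) ∧
        Nonempty ((T.aj n Y).ker ≃+ (∀ a : Fin (2 * n - 1 - d - 1), (T.aj (n - (a + 1)) X).ker)) := by
  obtain ⟨U, i, j, Y, π, hc, hπ, hY⟩ := G.exists_rat hX hd (N := 2 * n - 1) (by omega)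
  obtain ⟨W, hW, hWa, hiso, hrat⟩ := hT.jouanolou Y hY.smooth
  have h1 := qmiddle hT hn hc hπ
  exact ⟨Y, W, hY, ⟨hW, hWa, hrat _ hY.rational⟩, h1, h1.trans (inj_iff_of_isoHom (hiso n)),
    hT.kernel hc hπ n⟩

theorem qinfinite (G : QGeometry k) (hT : QAJ T) {S : Set ℕ} (hS : S.Infinite) :
    ((∀ X : Sch k, SmoothQP X → ∀ m, T.Inj m X) ↔
      ∀ n ∈ S, ∀ Y : Sch k, QRatVar (2 * n - 1) Y → T.Inj n Y) ∧
    ((∀ X : Sch k, SmoothQP X → ∀ m, T.Inj m X) ↔ ∀ n ∈ S, ∀ W : Sch k, AffRat W → T.Inj n W) := by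
  constructor
  · constructor
    · exact fun h n _ Y hY => h Y hY.smooth n
    · intro h X hX
      obtain ⟨d, hd, -⟩ := G.embedding X hX
      obtain ⟨n, hnS, hn⟩ := hS.exists_gt d
      obtain ⟨Y, W, hY, -, h1, -⟩ := qone G hT hX hd (n := n) (by omega)
      exact h1.mpr (h n hnS Y hY)
  · constructor
    · exact fun h n _ W hW => h W hW.smooth n
    · intro h X hX
      obtain ⟨d, hd, -⟩ := G.embedding X hX
      obtain ⟨n, hnS, hn⟩ := hS.exists_gt d
      obtain ⟨Y, W, -, hW, -, h1, -⟩ := qone G hT hX hd (n := n) (by omega)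
      exact h1.mpr (h n hnS W hW)

/-- One codimension. -/
theorem qlevel (G : QGeometry k) (hT : QAJ T) (m : ℤ) (h : ∀ W : Sch k, AffRat W → T.Inj (m + 1) W) :
    ∀ X : Sch k, SmoothQP X → ∀ b ≤ m, T.Inj b X := by
  intro X hX b hb
  obtain ⟨d, hd, -⟩ := G.embedding X hX
  obtain ⟨U, i, j, Y, π, hc, hπ, hY⟩ := G.exists_rat hX hd (N := 2 * d + 1 + (m + 1 - b).toNat) (by omega)
  obtain ⟨W, hW, hWa, hiso, hrat⟩ := hT.jouanolou Y hY.smooth
  have h0 := (inj_iff_of_isoHom (hiso (m + 1))).mpr (h W ⟨hW, hWa, hrat _ hY.rational⟩)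
  have h1 := (hT.inj_blowUp hc hπ (m + 1)).mp h0
  have h2 := h1 ⟨(m - b).toNat, by omega⟩
  have h3 : m + 1 - ((((m - b).toNat : ℕ) : ℤ) + 1) = b := by omega
  simpa only [h3] using h2

end Pool.Agent.Run7.h954.RV
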