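import Pool.Agent.Run7.h954.RV.PAdic

/-!
# `ℓ`-adic regulators and rational varieties
-/

set_option autoImplicit false

open CategoryTheory CategoryTheory.Limits AlgebraicGeometry MvPolynomial

universe u

namespace Pool.Agent.Run7.h954.RV

/-- A homomorphism `r : M →+ H` and a subgroup `S` of `H` (the semistable classes). -/
structure Reg : Type (u + 1) where
  M : Type u
  H : Type u
  [groupM : AddCommGroup M]
  [groupH : AddCommGroup H]
  r : M →+ H
  S : AddSubgroup H

attribute [instance] Reg.groupM Reg.groupH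

/-- `r` is injective with image `S`. -/
def Reg.Good (R : Reg.{u}) : Prop := Function.Injective R.r ∧ R.r.range = R.S

/-- `R'` is a direct summand of `R`: there are homomorphisms `R' → R → R'` with composition the identity,
compatible with the maps `r` and the subgroups `S`. -/
structure Reg.Retract (R' R : Reg.{u}) : Prop where
  ex : ∃ (a : R'.M →+ R.M) (b : R.M →+ R'.M) (a' : R'.H →+ R.H) (b' : R.H →+ R'.H),
    (∀ x, b (a x) = x) ∧ (∀ y, b' (a' y) = y) ∧ (∀ x, R.r (a x) = a' (R'.r x)) ∧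
      (∀ x, R'.r (b x) = b' (R.r x)) ∧ (∀ y ∈ R'.S, a' y ∈ R.S) ∧ ∀ y ∈ R.S, b' y ∈ R'.S

/-- Direct sums. -/
def Reg.prod (R R' : Reg.{u}) : Reg.{u} where
  M := R.M × R'.M
  H := R.H × R'.H
  r := R.r.prodMap R'.r
  S :=
    { carrier := {y | y.1 ∈ R.S ∧ y.2 ∈ R'.S}
      zero_mem' := ⟨zero_mem _, zero_mem _⟩
      add_mem' := fun h h' => ⟨add_mem h.1 h'.1, add_mem h.2 h'.2⟩
      neg_mem' := fun h => ⟨neg_mem h.1, neg_mem h.2⟩ }

/-- Finite direct sums. -/
def Reg.pi {n : ℕ} (R : Fin n → Reg.{u}) : Reg.{u} where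
  M := ∀ a, (R a).M
  H := ∀ a, (R a).H
  r :=
    { toFun := fun f a => (R a).r (f a)
      map_zero' := by
        funext a
        exact map_zero _
      map_add' := fun f g => by
        funext a
        exact map_add _ _ _ }
  S :=
    { carrier := {y | ∀ a, y a ∈ (R a).S}
      zero_mem' := fun _ => zero_mem _
      add_mem' := fun h h' a => add_mem (h a) (h' a)
      neg_mem' := fun h a => neg_mem (h a) }

/-- `R` and `R'` are isomorphic. -/
def Reg.Iso (R R' : Reg.{u}) : Prop :=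
  ∃ (a : R.M ≃+ R'.M) (b : R.H ≃+ R'.H), (∀ x, R'.r (a x) = b (R.r x)) ∧ ∀ y, y ∈ R.S ↔ b y ∈ R'.S

lemma Reg.Retract.good {R' R : Reg.{u}} (h : R'.Retract R) (hR : R.Good) : R'.Good := by
  obtain ⟨a, b, a', b', hba, hba', ha, hb, hS, hS'⟩ := h.ex
  obtain ⟨hinj, hran⟩ := hR
  refine ⟨fun x y hxy => ?_, ?_⟩
  · have h1 : a x = a y := hinj (by rw [ha, ha, hxy])
    rw [← hba x, h1, hba]
  · ext y
    constructor
    · rintro ⟨x, rfl⟩
      have h1 : R.r (a x) ∈ R.S := hran ▸ ⟨a x, rfl⟩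
      have h2 := hS' _ h1
      rwa [ha, hba'] at h2
    · intro hy
      obtain ⟨x, hx⟩ : a' y ∈ R.r.range := hran.symm ▸ hS y hy
      exact ⟨b x, by rw [hb, hx, hba']⟩

lemma Reg.Iso.retract {R' R : Reg.{u}} (h : R'.Iso R) : R'.Retract R := by
  obtain ⟨a, b, hab, hS⟩ := h
  refine ⟨⟨a, a.symm, b, b.symm, a.symm_apply_apply, b.symm_apply_apply, hab, fun x => ?_,
    fun y hy => (hS y).mp hy, fun y hy => (hS _).mpr (by
      change b (b.symm y) ∈ R.S
      rwa [b.apply_symm_apply])⟩⟩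
  apply b.injective
  change b (R'.r (a.symm x)) = b (b.symm (R.r x))
  rw [← hab, a.apply_symm_apply, b.apply_symm_apply]

lemma Reg.Iso.symm {R' R : Reg.{u}} (h : R'.Iso R) : R.Iso R' := by
  obtain ⟨a, b, hab, hS⟩ := h
  refine ⟨a.symm, b.symm, fun x => ?_, fun y => ?_⟩
  · apply b.injective
    rw [← hab, a.apply_symm_apply, b.apply_symm_apply]
  · rw [hS, b.apply_symm_apply]

lemma Reg.Iso.good_iff {R' R : Reg.{u}} (h : R'.Iso R) : R'.Good ↔ R.Good :=
  ⟨h.symm.retract.good, h.retract.good⟩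

lemma Reg.retract_fst (R R' : Reg.{u}) : R.Retract (R.prod R') :=
  ⟨⟨AddMonoidHom.inl _ _, AddMonoidHom.fst _ _, AddMonoidHom.inl _ _, AddMonoidHom.fst _ _, fun _ => rfl,
    fun _ => rfl, fun _ => Prod.ext rfl R'.r.map_zero, fun _ => rfl, fun _ hy => ⟨hy, zero_mem _⟩,
    fun _ hy => hy.1⟩⟩

lemma Reg.retract_snd (R R' : Reg.{u}) : R'.Retract (R.prod R') :=
  ⟨⟨AddMonoidHom.inr _ _, AddMonoidHom.snd _ _, AddMonoidHom.inr _ _, AddMonoidHom.snd _ _, fun _ => rfl,
    fun _ => rfl, fun _ => Prod.ext R.r.map_zero rfl, fun _ => rfl, fun _ hy => ⟨zero_mem _, hy⟩,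
    fun _ hy => hy.2⟩⟩

lemma Reg.prod_good (R R' : Reg.{u}) : (R.prod R').Good ↔ R.Good ∧ R'.Good := by
  constructor
  · exact fun h => ⟨(Reg.retract_fst R R').good h, (Reg.retract_snd R R').good h⟩
  · rintro ⟨⟨h1, h2⟩, h3, h4⟩
    refine ⟨Prod.map_injective (f := ⇑R.r) (g := ⇑R'.r) |>.mpr ⟨h1, h3⟩, ?_⟩
    ext ⟨y, z⟩
    constructor
    · rintro ⟨⟨x, x'⟩, hx⟩
      exact ⟨h2 ▸ ⟨x, congrArg Prod.fst hx⟩, h4 ▸ ⟨x', congrArg Prod.snd hx⟩⟩
    · rintro ⟨hy, hz⟩
      have hy' : y ∈ R.r.range := h2.symm ▸ hy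
      have hz' : z ∈ R'.r.range := h4.symm ▸ hz
      obtain ⟨x, hx⟩ := hy'
      obtain ⟨x', hx'⟩ := hz'
      exact ⟨(x, x'), Prod.ext hx hx'⟩

lemma Reg.retract_pi {n : ℕ} (R : Fin n → Reg.{u}) (a : Fin n) : (R a).Retract (Reg.pi R) := by
  refine ⟨⟨AddMonoidHom.single (fun a => (R a).M) a, Pi.evalAddMonoidHom _ a,
    AddMonoidHom.single (fun a => (R a).H) a, Pi.evalAddMonoidHom _ a, fun x => ?_, fun y => ?_,
    fun x => ?_, fun _ => rfl, fun y hy => ?_, fun y hy => hy a⟩⟩
  · exact Pi.single_eq_same (M := fun a => (R a).M) a x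
  · exact Pi.single_eq_same (M := fun a => (R a).H) a y
  · funext b
    change (R b).r (Pi.single (M := fun a => (R a).M) a x b) =
      Pi.single (M := fun a => (R a).H) a ((R a).r x) b
    by_cases hb : b = a
    · subst hb
      rw [Pi.single_eq_same, Pi.single_eq_same]
    · rw [Pi.single_eq_of_ne hb, Pi.single_eq_of_ne hb, map_zero]
  · intro b
    change Pi.single (M := fun a => (R a).H) a y b ∈ (R b).S
    by_cases hb : b = a
    · subst hb
      rwa [Pi.single_eq_same]
    · rw [Pi.single_eq_of_ne hb]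
      exact zero_mem _

lemma Reg.pi_good {n : ℕ} (R : Fin n → Reg.{u}) : (Reg.pi R).Good ↔ ∀ a, (R a).Good := by
  constructor
  · exact fun h a => (Reg.retract_pi R a).good h
  · intro h
    refine ⟨fun f g hfg => ?_, ?_⟩
    · funext a
      exact (h a).1 (congrFun hfg a)
    · ext y
      constructor
      · rintro ⟨x, hx⟩ a
        have h1 : (R a).r (x a) = y a := congrFun hx a
        exact (h a).2 ▸ (⟨x a, h1⟩ : y a ∈ (R a).r.range)
      · intro hy
        have h1 : ∀ a, ∃ x, (R a).r x = y a := fun a => by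
          have h2 : y a ∈ (R a).r.range := (h a).2.symm ▸ hy a
          exact h2
        choose x hx using h1
        exact ⟨x, funext hx⟩

/-- `T i j X` consists of `H^i_M(X, ℚ(j))_hom ⊗ ℚ_ℓ → H^1(G_ℚ, H^{i-1}(X, ℚ_ℓ(j)))` and of the semistable
classes, for schemes `X` over `ℚ`. -/
abbrev RegTheory (k : Type) [Field k] : Type _ := ℤ → ℤ → Sch k → Reg.{u}

variable {k : Type} [Field k]

/-- Well known properties of the `ℓ`-adic regulators. -/
structure IsReg (T : RegTheory.{u} k) : Prop where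
  /-- The formula for blow-ups with smooth centres. -/
  blowUp : ∀ {X P Y : Sch k} (i : X ⟶ P) (π : Y ⟶ P) (d N : ℕ), Center i d N → IsBlowUp i π →
    ∀ s j, (T s j Y).Iso ((T s j P).prod
      (Reg.pi fun a : Fin (N - d - 1) => T (s - 2 * (a + 1)) (j - (a + 1)) X))
  /-- Birational morphisms. -/
  birat : ∀ {Y' Y : Sch k} (f : Y' ⟶ Y), SmoothProj Y' → SmoothProj Y → Birat f → ∀ s j,
    (T s j Y).Retract (T s j Y')
  /-- The projective space (results of Borel and Soulé). -/
  space : ∀ N s j, (T s j (PP k N)).Good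
  /-- Both sides vanish. -/
  vanish : ∀ (X : Sch k) (d : ℕ), SmoothProj X → Dim X d → ∀ s j : ℤ, j ≤ -|2 * j - s| ∨
    d + |2 * j - s| < j → Subsingleton (T s j X).M ∧ Subsingleton (T s j X).H

lemma IsReg.compatible {T : RegTheory.{u} k} (hT : IsReg T) (e : ℤ) :
    Compatible e.natAbs (fun m X => (T (2 * m - e) m X).Good) where
  blowUp i π d N hc hπ m := by
    rw [(hT.blowUp i π d N hc hπ _ m).good_iff, Reg.prod_good, Reg.pi_good]
    have h : ∀ a : Fin (N - d - 1), 2 * m - e - 2 * ((a : ℤ) + 1) = 2 * (m - (a + 1)) - e := fun a => by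
      ring
    simp only [h]
  birat f h' h hf m hg := (hT.birat f h' h hf _ m).good hg
  space N m := hT.space N _ m
  vanish X d hX hd m hm := by
    have h1 : (2 * m - (2 * m - e)) = e := by ring
    obtain ⟨h2, h3⟩ := hT.vanish X d hX hd (2 * m - e) m (by
      rw [h1, Int.abs_eq_natAbs]
      exact hm)
    refine ⟨Function.injective_of_subsingleton _, ?_⟩
    ext y
    have hy : y = 0 := Subsingleton.elim _ _
    rw [hy]
    exact ⟨fun _ => zero_mem _, fun _ => zero_mem _⟩

/-- Regulators for all number fields, for one prime `ℓ`. -/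
abbrev RegFamily : Type _ := ∀ (K : Type) [Field K] [NumberField K], RegTheory.{u} K

/-- Smooth projective varieties over `K` are smooth projective over `ℚ`, with the same groups and maps
(Shapiro's lemma). -/
def RegShapiro (T : RegFamily.{u}) : Prop :=
  ∀ (K : Type) [Field K] [NumberField K] (X : Sch K), SmoothProj X → SmoothProj ((res K).obj X) ∧
    ∀ s j, (T K s j X).Iso (T ℚ s j ((res K).obj X))

theorem reg_all {T : RegFamily.{u}} (hres : RegShapiro T) :
    (∀ (K : Type) [Field K] [NumberField K] (X : Sch K), SmoothProj X → ∀ s j, (T K s j X).Good) ↔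
      ∀ (e : ℤ) (X : Sch ℚ), SmoothProj X → ∀ m, (T ℚ (2 * m - e) m X).Good := by
  constructor
  · exact fun h e X hX m => h ℚ X hX _ m
  · intro h K _ _ X hX s j
    obtain ⟨hX', hiso⟩ := hres K X hX
    have h1 := h (2 * j - s) _ hX' j
    rw [show 2 * j - (2 * j - s) = s by ring] at h1
    exact (hiso s j).good_iff.mpr h1

end Pool.Agent.Run7.h954.RV
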