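import Pool.Agent.Run7.h954.RV.AJ

/-!
# Kernels of the integral Abel-Jacobi maps: torsion
-/

set_option autoImplicit false

open CategoryTheory CategoryTheory.Limits AlgebraicGeometry MvPolynomial

universe u

namespace Pool.Agent.Run7.h954.RV

/-- The kernel of `r` is a torsion group. -/
def TorsKer {A B : Type u} [AddCommGroup A] [AddCommGroup B] (r : A →+ B) : Prop :=
  ∀ z, r z = 0 → ∃ n : ℕ, 0 < n ∧ n • z = 0

variable {k : Type} [Field k] {T : Theory.{u} k}

/-- The kernel of the Abel-Jacobi map in codimension `m` is a torsion group. -/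
def Theory.Tors (T : Theory.{u} k) (m : ℤ) (X : Sch k) : Prop := TorsKer (T.aj m X)

lemma tors_of_retract {A B A' B' : Type u} [AddCommGroup A] [AddCommGroup B] [AddCommGroup A']
    [AddCommGroup B'] {r : A →+ B} {s : A' →+ B'} (a : A →+ A') (b : B →+ B')
    (ha : Function.Injective a) (hab : ∀ x, s (a x) = b (r x)) (hs : TorsKer s) : TorsKer r := by
  intro z hz
  obtain ⟨n, hn, h⟩ := hs (a z) (by rw [hab, hz, map_zero])
  exact ⟨n, hn, ha (by rw [map_nsmul, h, map_zero])⟩

lemma tors_iff_of_isoHom {A B A' B' : Type u} [AddCommGroup A] [AddCommGroup B] [AddCommGroup A']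
    [AddCommGroup B'] {r : A →+ B} {s : A' →+ B'} (h : IsoHom r s) : TorsKer r ↔ TorsKer s := by
  obtain ⟨a, b, hab⟩ := h
  constructor
  · refine tors_of_retract (a.symm : A' →+ A) (b.symm : B' →+ B) a.symm.injective fun x => ?_
    apply b.injective
    change b (r (a.symm x)) = b (b.symm (s x))
    rw [← hab, a.apply_symm_apply, b.apply_symm_apply]
  · exact tors_of_retract (a : A →+ A') (b : B →+ B') a.injective hab

lemma tors_prod {A B A' B' : Type u} [AddCommGroup A] [AddCommGroup B] [AddCommGroup A']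
    [AddCommGroup B'] (r : A →+ B) (s : A' →+ B') : TorsKer (r.prodMap s) ↔ TorsKer r ∧ TorsKer s := by
  constructor
  · intro h
    constructor
    · intro z hz
      obtain ⟨n, hn, h1⟩ := h (z, 0) (Prod.ext hz s.map_zero)
      exact ⟨n, hn, congrArg Prod.fst h1⟩
    · intro z hz
      obtain ⟨n, hn, h1⟩ := h (0, z) (Prod.ext r.map_zero hz)
      exact ⟨n, hn, congrArg Prod.snd h1⟩
  · rintro ⟨hr, hs⟩ ⟨x, y⟩ hxy
    obtain ⟨n, hn, h1⟩ := hr x (congrArg Prod.fst hxy)
    obtain ⟨m, hm, h2⟩ := hs y (congrArg Prod.snd hxy)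
    refine ⟨n * m, Nat.mul_pos hn hm, Prod.ext ?_ ?_⟩
    · change (n * m) • x = 0
      rw [mul_comm, mul_smul, h1, smul_zero]
    · change (n * m) • y = 0
      rw [mul_smul, h2, smul_zero]

lemma tors_sum (r : ℕ) (m : ℤ) (X : Sch k) :
    TorsKer (T.sum r m X) ↔ ∀ a : Fin r, T.Tors (m - (a + 1)) X := by
  constructor
  · intro h a z hz
    obtain ⟨n, hn, h1⟩ := h (Pi.single a z) (by
      funext b
      change T.aj _ X (Pi.single (M := fun a : Fin r => T.C (m - (a + 1)) X) a z b) = 0
      by_cases hb : b = a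
      · subst hb
        rwa [Pi.single_eq_same]
      · rw [Pi.single_eq_of_ne hb, map_zero])
    refine ⟨n, hn, ?_⟩
    have h2 := congrFun h1 a
    rwa [Pi.smul_apply, Pi.single_eq_same] at h2
  · intro h f hf
    choose n hn h1 using fun a => h a (f a) (congrFun hf a)
    refine ⟨∏ a, n a, Finset.prod_pos fun a _ => hn a, ?_⟩
    funext a
    obtain ⟨t, ht⟩ := Finset.dvd_prod_of_mem n (Finset.mem_univ a)
    rw [Pi.smul_apply, ht, mul_comm, mul_smul, h1, smul_zero]
    rfl

lemma IsAJ.compatible_tors (hT : IsAJ T) : Compatible 0 T.Tors where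
  blowUp i π d N hc hπ m := by
    rw [Theory.Tors, tors_iff_of_isoHom (hT.blowUp i π d N hc hπ m), tors_prod, tors_sum]
    rfl
  birat f h' h hf m hinj := by
    obtain ⟨a, b, ha, hab⟩ := hT.birat f h' h hf m
    exact tors_of_retract a b ha hab hinj
  space N m z _ := by
    have := hT.space N m
    exact ⟨1, one_pos, Subsingleton.elim _ _⟩
  vanish X d hX hd m hm z _ := by
    have := hT.vanish X d hX hd m (by simpa using hm)
    exact ⟨1, one_pos, Subsingleton.elim _ _⟩

/-- Smooth proper varieties (connected). -/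
structure SmoothProper (X : Sch k) : Prop where
  smooth : Smooth X.hom
  proper : IsProper X.hom
  connected : ConnectedSpace X.left

/-- Projective varieties are proper; Chow's lemma and resolution of singularities: a smooth proper variety is
dominated by a smooth projective variety by a birational morphism, and the pull-back is injective. -/
structure Chow (T : Theory.{u} k) : Prop where
  proper : ∀ X : Sch k, SmoothProj X → SmoothProper X
  dominate : ∀ X : Sch k, SmoothProper X → ∃ X' : Sch k, SmoothProj X' ∧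
    ∀ m, ∃ (a : T.C m X →+ T.C m X') (b : T.J m X →+ T.J m X'), Function.Injective a ∧
      ∀ x, T.aj m X' (a x) = b (T.aj m X x)

lemma proper_iff (h : Chow T) (P : ℤ → Prop) :
    (∀ X : Sch k, SmoothProper X → ∀ m, P m → T.Tors m X) ↔
      ∀ X : Sch k, SmoothProj X → ∀ m, P m → T.Tors m X := by
  constructor
  · exact fun h1 X hX => h1 X (h.proper X hX)
  · intro h1 X hX m hm
    obtain ⟨X', hX', h2⟩ := h.dominate X hX
    obtain ⟨a, b, ha, hab⟩ := h2 m
    exact tors_of_retract a b ha hab (h1 X' hX' m hm)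

end Pool.Agent.Run7.h954.RV
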